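import Pool.Agent.N65.TU.Phi
set_option autoImplicit false

/-!
The symbols on the hypersurfaces `λ g ∏_e L_e ^ (w_e + 1) = 1` are unramified, for arbitrary
arrangements and `λ = μ Δ ^ B`.
-/

namespace Pool.Agent.N65.TU

open scoped WithZero

open Pool.Agent.TH826.MK

open Pool.Agent.TH826.GA (cm lf al be ku coe_ku)

open Pool.Agent.TH577.UA

section all

/-- If the product of integral elements is a unit, then they are units. -/
theorem all_one {L : Type*} [Field L] (v : Valuation L ℤᵐ⁰) {m : ℕ} (l : Fin (m + 1) → L)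
    (w : Fin (m + 1) → ℕ) {x y : ℤᵐ⁰} (hx : x ≤ 1) (hy : y ≤ 1) (hl : ∀ e, v (l e) ≤ 1)
    (h : x * (y * ∏ e, v (l e) ^ (w e + 1)) = 1) (e : Fin (m + 1)) : v (l e) = 1 := by
  classical
  refine le_antisymm (hl e) ?_
  rw [← h, ← Finset.mul_prod_erase _ _ (Finset.mem_univ e)]
  have h1 : ∏ x ∈ Finset.univ.erase e, v (l x) ^ (w x + 1) ≤ 1 :=
    Finset.prod_le_one' fun j _ => pow_le_one' (hl j) _
  have h2 : v (l e) ^ (w e + 1) ≤ v (l e) := by
    rw [pow_succ]
    exact mul_le_of_le_one_left' (pow_le_one' (hl e) _)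
  calc x * (y * (v (l e) ^ (w e + 1) * ∏ x ∈ Finset.univ.erase e, v (l x) ^ (w x + 1)))
      ≤ 1 * (1 * (v (l e) * 1)) := mul_le_mul' hx (mul_le_mul' hy (mul_le_mul' h2 h1))
    _ = v (l e) := by rw [one_mul, one_mul, mul_one]

theorem exists_n {K L : Type*} [Field K] [Field L] (φ : K →+* L) (v : Valuation L ℤᵐ⁰) {D : K}
    (hD0 : D ≠ 0) (hD : IsIntegral ℤ D) :
    ∃ n : ℤ, 0 ≤ n ∧ v (φ D) = WithZero.exp (-n) := by
  obtain ⟨k, hk⟩ := exists_ord v (Units.mk0 (φ D) ((map_ne_zero φ).2 hD0))
  refine ⟨-k, ?_, by rw [neg_neg]; exact hk⟩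
  have h1 : v (φ D) ≤ 1 := val_le_one_of_integral v (map_isIntegral_int φ hD)
  rw [Units.val_mk0] at hk
  rw [hk, ← WithZero.exp_zero, WithZero.exp_le_exp] at h1
  omega

end all

section arr

variable {K : Type*} [Field K] {d m : ℕ} {g : MvPolynomial (Fin (d + 1)) K}
  {w : Fin (m + 1) → ℕ} {c : Fin (m + 1) → Fin (d + 1) → K} {a : Fin (m + 1) → K} {mu : K}
  {L : Type*} [Field L]

theorem symb_mem_unitPart {lam : K} (hlam : lam = mu * Del c ^ Bex g w)
    (f : ARing lam g w c a →+* L)
    (hmu : IsIntegral ℤ mu) (hg : ∀ k, IsIntegral ℤ (g.coeff k))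
    (hc : ∀ e j, IsIntegral ℤ (c e j)) (ha : ∀ e, IsIntegral ℤ (a e)) (v : Valuation L ℤᵐ⁰)
    {T : Fin (d + 1) → Fin (m + 1)} (hT : (cm c T).det ≠ 0) :
    symb (fun l => Units.map (f : ARing lam g w c a →* L)
      (aent lam g w c a T l)) ∈ unitPart v (d + 1) := by
  classical
  set F : MvPolynomial (Fin (d + 1)) K →+* L := f.comp (apol lam g w c a) with hF
  obtain ⟨n, hn, hD⟩ := exists_n (F.comp MvPolynomial.C) v (Del_ne (c := c)) (Del_int hc)
  set z : Fin (d + 1) → Lˣ := fun k => Units.map (f : ARing lam g w c a →* L)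
    (Units.map (acst lam g w c a : K →* ARing lam g w c a) (ku (kap c T k)) * au lam g w c a (T k))
    with hz
  set b : Fin (m + 1) → Lˣ := fun e => Units.map (f : ARing lam g w c a →* L) (au lam g w c a e)
    with hb
  have hwv : ∀ e, (b e : L) = F (lf c a e) := fun e => rfl
  have hzv : ∀ k, (z k : L) = (F.comp MvPolynomial.C) (kap c T k) * F (lf c a (T k)) := by
    intro k
    rw [hz]
    simp only [map_mul, Units.val_mul]
    congr 1
    show f (acst lam g w c a (ku (kap c T k) : K)) = _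
    rw [coe_ku (kap_ne hT k)]
    rfl
  have hent : ∀ k, Units.map (f : ARing lam g w c a →* L) (aent lam g w c a T k) =
      z k / b (hi c T k) := by
    intro k
    unfold aent pent
    rw [hz, hb]
    simp only [map_mul, map_div]
    rw [mul_div_assoc]
  rcases block_or_small (F.comp MvPolynomial.C) v hc ha hn hD hT (fun e => F (lf c a e))
    (fun e => F_lf F hT e) with hsmall | ⟨k0, hk0⟩
  · obtain ⟨h1, h2⟩ := bounds F v hc ha hn hD hT hsmall
    have hPhi := val_Phi_le F v hc ha hn hD hT hsmall hg w hmu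
    have hone : F (MvPolynomial.C lam * (g * ∏ e, lf c a e ^ (w e + 1))) = 1 := by
      have h3 := prod_lL f
      rw [map_mul, map_mul, map_prod]
      simp only [map_pow]
      exact h3
    have hn0 : n = 0 := by
      have h3 : v (F (MvPolynomial.C lam * (g * ∏ e, lf c a e ^ (w e + 1)))) = 1 := by
        rw [hone, map_one]
      rw [hlam] at h3
      rw [h3, ← WithZero.exp_zero, WithZero.exp_le_exp] at hPhi
      omega
    rw [hn0, zero_mul] at h1 h2
    have hgv := val_poly_le F v hg le_rfl h2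
    rw [zero_mul, WithZero.exp_zero] at hgv
    simp only [WithZero.exp_zero] at h1
    have hlv : v (F (MvPolynomial.C lam)) ≤ 1 := by
      refine val_le_one_of_integral v (map_isIntegral_int (F.comp MvPolynomial.C) ?_)
      rw [hlam]
      exact hmu.mul ((Del_int hc).pow _)
    have hone' := congrArg v hone
    rw [map_mul, map_mul, map_mul, map_mul, map_prod, map_prod, map_one] at hone'
    simp only [map_pow] at hone'
    have hL1 := all_one v (fun e => F (lf c a e)) w hlv hgv h1 hone'
    have hkapv : ∀ k, v ((F.comp MvPolynomial.C) (kap c T k)) = 1 := by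
      intro k
      have h3 : v ((F.comp MvPolynomial.C) (kap c T k)) ≤ 1 := by
        have h4 := val_le_exp (F.comp MvPolynomial.C) v hD (x := kap c T k) (by
          unfold kap
          rw [div_eq_mul_inv, mul_left_comm]
          exact (det_int hc _).mul (Del_div hc hT))
        rwa [hn0, WithZero.exp_zero] at h4
      have h5 := val_le_exp (F.comp MvPolynomial.C) v hD (Del_kap_inv hc hT k)
      rw [hn0, WithZero.exp_zero, map_inv₀, map_inv₀] at h5
      have h0 : 0 < v ((F.comp MvPolynomial.C) (kap c T k)) := by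
        rw [Valuation.pos_iff]
        exact (map_ne_zero _).2 (kap_ne hT k)
      exact le_antisymm h3 ((inv_le_one₀ h0).1 h5)
    refine Submodule.subset_span ⟨_, fun k => ?_, rfl⟩
    show v ((Units.map (f : ARing lam g w c a →* L) (aent lam g w c a T k) : Lˣ) : L) = 1
    rw [hent, Units.val_div_eq_div_val, map_div₀, hzv, hwv, map_mul, hkapv, hL1, hL1]
    simp
  · refine mem_unitPart_of_block' v _ (Finset.univ.filter fun k => hi c T k = hi c T k0) z
      (b (hi c T k0)) (fun k hk => ?_) (l := k0)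
      (Finset.mem_filter.2 ⟨Finset.mem_univ _, rfl⟩) ?_
    · show Units.map (f : ARing lam g w c a →* L) (aent lam g w c a T k) = _
      rw [hent, (Finset.mem_filter.1 hk).2]
    · rw [hwv, Finset.sum_congr rfl fun k _ => hzv k, hzv]
      exact hk0

theorem symb_mem_unramified {lam : K} (hlam : lam = mu * Del c ^ Bex g w)
    (f : ARing lam g w c a →+* L)
    (hmu : IsIntegral ℤ mu) (hg : ∀ k, IsIntegral ℤ (g.coeff k))
    (hc : ∀ e j, IsIntegral ℤ (c e j)) (ha : ∀ e, IsIntegral ℤ (a e))
    {T : Fin (d + 1) → Fin (m + 1)} (hT : (cm c T).det ≠ 0) :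
    KQ.map (d + 1) f (symb (aent lam g w c a T)) ∈ Unramified L (d + 1) := by
  rw [KQ.map_symb]
  unfold Unramified
  simp only [Submodule.mem_iInf]
  intro v _
  exact symb_mem_unitPart hlam f hmu hg hc ha v hT

end arr

end Pool.Agent.N65.TU
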