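import Pool.Agent.TH577.UA.Final
set_option autoImplicit false

/-!
The product of the maximal minors of an arrangement of hyperplanes.
-/

namespace Pool.Agent.N65.TU

open Pool.Agent.TH826.GA (cm)

/-- The product of all nonzero determinants `det (c_{T_i,j})` of `d + 1` of the forms. -/
noncomputable def Del {K : Type*} [Field K] {d m : ℕ} (c : Fin (m + 1) → Fin (d + 1) → K) : K :=
  open Classical in ∏ T : Fin (d + 1) → Fin (m + 1), if (cm c T).det = 0 then 1 else (cm c T).det

/-- The exponent `(2 m + 3) (deg g + ∑_e (w_e + 1)) + 1`. -/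
noncomputable def Bex {K : Type*} [Field K] {d m : ℕ} (g : MvPolynomial (Fin (d + 1)) K)
    (w : Fin (m + 1) → ℕ) : ℕ := (2 * m + 3) * (g.totalDegree + ∑ e, (w e + 1)) + 1

end Pool.Agent.N65.TU
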