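import Pool.Agent.N65.TU.Val
set_option autoImplicit false

/-!
The value of `Φ = λ g ∏_e L_e ^ (w_e + 1)` at a discrete valuation, for `λ = μ Δ ^ B`.
-/

namespace Pool.Agent.N65.TU

open scoped WithZero

open Pool.Agent.TH826.MK

open Pool.Agent.TH826.GA (cm lf al be ku coe_ku)

open Pool.Agent.TH577.UA

variable {K : Type*} [Field K] {L : Type*} [Field L] {d m : ℕ}
  {c : Fin (m + 1) → Fin (d + 1) → K} {a : Fin (m + 1) → K}
  (F : MvPolynomial (Fin (d + 1)) K →+* L) (v : Valuation L ℤᵐ⁰)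

theorem F_lf {T : Fin (d + 1) → Fin (m + 1)} (hT : (cm c T).det ≠ 0) (e : Fin (m + 1)) :
    F (lf c a e) = ∑ k, (F.comp MvPolynomial.C) (al c T e k) * F (lf c a (T k)) +
      (F.comp MvPolynomial.C) (be c a T e) := by
  conv_lhs => rw [lf_eq (a := a) hT e]
  rw [map_add, map_sum]
  simp only [map_mul]
  rfl

theorem F_X {T : Fin (d + 1) → Fin (m + 1)} (hT : (cm c T).det ≠ 0) (j : Fin (d + 1)) :
    F (MvPolynomial.X j) = ∑ i, (F.comp MvPolynomial.C) ((cm c T)⁻¹ j i) *
      (F (lf c a (T i)) + (F.comp MvPolynomial.C) (a (T i))) := by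
  conv_lhs => rw [X_eq (a := a) hT j]
  rw [map_sum]
  simp only [map_mul, map_add]
  rfl

/-- the bound of all forms and of the coordinates -/
theorem bounds (hc : ∀ e j, IsIntegral ℤ (c e j)) (ha : ∀ e, IsIntegral ℤ (a e)) {n : ℤ}
    (hn : 0 ≤ n) (hD : v (F.comp MvPolynomial.C (Del c)) = WithZero.exp (-n))
    {T : Fin (d + 1) → Fin (m + 1)} (hT : (cm c T).det ≠ 0)
    (hb : ∀ k, v (F (lf c a (T k))) ≤ WithZero.exp (thr n c T k)) :
    (∀ e, v (F (lf c a e)) ≤ WithZero.exp (n * (2 * m + 3))) ∧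
      ∀ j, v (F (MvPolynomial.X j)) ≤ WithZero.exp (n * (2 * m + 3)) := by
  have hb' : ∀ k, v (F (lf c a (T k))) ≤ WithZero.exp (n * (2 * m + 2)) := by
    intro k
    refine (hb k).trans (WithZero.exp_le_exp.2 ?_)
    unfold thr
    have h1 : (0 : ℤ) ≤ (hi c T k : ℕ) := by positivity
    nlinarith [mul_nonneg hn h1]
  have hm0 : (0 : ℤ) ≤ m := by positivity
  have h2 : WithZero.exp n * WithZero.exp (n * (2 * m + 2)) = WithZero.exp (n * (2 * m + 3)) := by
    rw [← WithZero.exp_add]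
    congr 1
    ring
  constructor
  · intro e
    rw [F_lf F hT e]
    refine (v.map_add _ _).trans (max_le (Valuation.map_sum_le v fun k _ => ?_) ?_)
    · rw [map_mul, ← h2]
      exact mul_le_mul' (val_le_exp _ v hD (Del_al hc hT _ _)) (hb' k)
    · refine (val_le_exp _ v hD (Del_be hc ha hT _)).trans (WithZero.exp_le_exp.2 ?_)
      nlinarith [mul_nonneg hn hm0]
  · intro j
    rw [F_X F hT j (a := a)]
    refine Valuation.map_sum_le v fun i _ => ?_
    rw [map_mul, ← h2]
    refine mul_le_mul' (val_le_exp _ v hD (Del_inv hc hT _ _)) ?_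
    refine (v.map_add _ _).trans (max_le (hb' i) ?_)
    have h3 : v ((F.comp MvPolynomial.C) (a (T i))) ≤ 1 :=
      val_le_one_of_integral v (map_isIntegral_int _ (ha _))
    refine h3.trans ?_
    rw [← WithZero.exp_zero, WithZero.exp_le_exp]
    nlinarith [mul_nonneg hn hm0]

theorem val_poly_le {g : MvPolynomial (Fin (d + 1)) K} (hg : ∀ k, IsIntegral ℤ (g.coeff k))
    {R : ℤ} (hR : 0 ≤ R) (hx : ∀ j, v (F (MvPolynomial.X j)) ≤ WithZero.exp R) :
    v (F g) ≤ WithZero.exp (R * g.totalDegree) := by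
  have e : F g = ∑ k ∈ g.support, F (MvPolynomial.C (g.coeff k)) *
      ∏ j, F (MvPolynomial.X j) ^ k j := by
    have h1 : F g = MvPolynomial.eval₂ (F.comp MvPolynomial.C) (fun j => F (MvPolynomial.X j)) g := by
      have h2 : F = MvPolynomial.eval₂Hom (F.comp MvPolynomial.C)
          (fun j => F (MvPolynomial.X j)) := by
        refine MvPolynomial.ringHom_ext (fun x => ?_) fun j => ?_
        · simp only [MvPolynomial.coe_eval₂Hom, MvPolynomial.eval₂_C]
          rfl
        · simp only [MvPolynomial.coe_eval₂Hom, MvPolynomial.eval₂_X]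
      exact congrArg (fun F : MvPolynomial (Fin (d + 1)) K →+* L => F g) h2
    rw [h1, MvPolynomial.eval₂_eq']
    rfl
  rw [e]
  refine Valuation.map_sum_le v fun k hk => ?_
  rw [map_mul, map_prod]
  have h1 : v (F (MvPolynomial.C (g.coeff k))) ≤ 1 :=
    val_le_one_of_integral v (map_isIntegral_int (F.comp MvPolynomial.C) (hg k))
  have h2 : ∏ j, v (F (MvPolynomial.X j) ^ k j) ≤ WithZero.exp (∑ j, R * k j) := by
    have h3 : ∀ t : Finset (Fin (d + 1)), ∏ j ∈ t, v (F (MvPolynomial.X j) ^ k j) ≤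
        WithZero.exp (∑ j ∈ t, R * k j) := by
      intro t
      induction t using Finset.induction_on with
      | empty => simp
      | insert j t hj ih =>
        rw [Finset.prod_insert hj, Finset.sum_insert hj, WithZero.exp_add]
        refine mul_le_mul' ?_ ih
        rw [map_pow, mul_comm R, ← smul_eq_mul (a := ((k j : ℕ) : ℤ)), WithZero.exp_zsmul,
          zpow_natCast]
        exact pow_le_pow_left' (hx j) _
    exact h3 Finset.univ
  calc v (F (MvPolynomial.C (g.coeff k))) * ∏ j, v (F (MvPolynomial.X j) ^ k j)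
      ≤ 1 * WithZero.exp (∑ j, R * k j) := mul_le_mul' h1 h2
    _ ≤ WithZero.exp (R * g.totalDegree) := by
      rw [one_mul, WithZero.exp_le_exp, ← Finset.mul_sum]
      refine mul_le_mul_of_nonneg_left ?_ hR
      have h4 := MvPolynomial.le_totalDegree hk
      rw [Finsupp.sum_fintype _ _ fun _ => rfl] at h4
      exact_mod_cast h4

/-- the bound of `Φ` -/
theorem val_Phi_le (hc : ∀ e j, IsIntegral ℤ (c e j)) (ha : ∀ e, IsIntegral ℤ (a e)) {n : ℤ}
    (hn : 0 ≤ n) (hD : v (F.comp MvPolynomial.C (Del c)) = WithZero.exp (-n))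
    {T : Fin (d + 1) → Fin (m + 1)} (hT : (cm c T).det ≠ 0)
    (hb : ∀ k, v (F (lf c a (T k))) ≤ WithZero.exp (thr n c T k))
    {g : MvPolynomial (Fin (d + 1)) K} (hg : ∀ k, IsIntegral ℤ (g.coeff k))
    (w : Fin (m + 1) → ℕ) {mu : K} (hmu : IsIntegral ℤ mu) :
    v (F (MvPolynomial.C (mu * Del c ^ Bex g w) * (g * ∏ e, lf c a e ^ (w e + 1)))) ≤
      WithZero.exp (-n) := by
  obtain ⟨h1, h2⟩ := bounds F v hc ha hn hD hT hb
  set R : ℤ := n * (2 * m + 3) with hR
  have hm0 : (0 : ℤ) ≤ m := by positivity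
  have hR0 : 0 ≤ R := by
    rw [hR]
    positivity
  have h3 := val_poly_le F v hg hR0 h2
  have h4 : v (F (MvPolynomial.C mu)) ≤ 1 :=
    val_le_one_of_integral v (map_isIntegral_int (F.comp MvPolynomial.C) hmu)
  have h5 : v (F (MvPolynomial.C (Del c) ^ Bex g w)) = WithZero.exp (-n * Bex g w) := by
    have h6 : v (F (MvPolynomial.C (Del c))) = WithZero.exp (-n) := hD
    rw [map_pow, map_pow, h6, ← zpow_natCast, ← WithZero.exp_zsmul, smul_eq_mul, mul_comm]
  have h6 : ∏ e, v (F (lf c a e)) ^ (w e + 1) ≤ WithZero.exp (R * ∑ e, ((w e + 1 : ℕ) : ℤ)) := by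
    rw [Finset.mul_sum]
    have h7 : ∀ t : Finset (Fin (m + 1)), ∏ e ∈ t, v (F (lf c a e)) ^ (w e + 1) ≤
        WithZero.exp (∑ e ∈ t, R * ((w e + 1 : ℕ) : ℤ)) := by
      intro t
      induction t using Finset.induction_on with
      | empty => simp
      | insert j t hj ih =>
        rw [Finset.prod_insert hj, Finset.sum_insert hj, WithZero.exp_add]
        refine mul_le_mul' ?_ ih
        rw [mul_comm R, ← smul_eq_mul (a := (((w j + 1 : ℕ)) : ℤ)), WithZero.exp_zsmul,
          zpow_natCast]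
        exact pow_le_pow_left' (h1 j) _
    exact h7 Finset.univ
  simp only [map_mul, map_prod, map_pow] at h5 ⊢
  rw [h5]
  calc v (F (MvPolynomial.C mu)) * WithZero.exp (-n * Bex g w) *
        (v (F g) * ∏ e, v (F (lf c a e)) ^ (w e + 1))
      ≤ 1 * WithZero.exp (-n * Bex g w) *
        (WithZero.exp (R * g.totalDegree) * WithZero.exp (R * ∑ e, ((w e + 1 : ℕ) : ℤ))) :=
        mul_le_mul' (mul_le_mul' h4 le_rfl) (mul_le_mul' h3 h6)
    _ = WithZero.exp (-n) := by
      rw [one_mul, ← WithZero.exp_add, ← WithZero.exp_add]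
      congr 1
      rw [hR]
      unfold Bex
      push_cast
      ring

end Pool.Agent.N65.TU
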