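import Pool.Agent.N65.TU.Del
set_option autoImplicit false

/-!
Valuations and arrangements of hyperplanes which are not unimodular.
-/

namespace Pool.Agent.N65.TU

open scoped WithZero

open Pool.Agent.TH826.MK

open Pool.Agent.TH826.GA (cm lf al be ku coe_ku)

open Pool.Agent.TH826.SX (symb_neg_on symb_upd_neg symb_upd_inv)

open Pool.Agent.TH577.UA

section block

variable {L : Type*} [Field L] {n : ℕ}

/-- If the entries on `J` are `z_k / z_0`, and `z_0 - ∑_{k ∈ J} z_k` is smaller than one of the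
`z_k`, then the symbol lies in the unit part. -/
theorem mem_unitPart_of_block' (v : Valuation L ℤᵐ⁰) (a : Fin n → Lˣ) (J : Finset (Fin n))
    (z : Fin n → Lˣ) (z0 : Lˣ) (ha : ∀ k ∈ J, a k = z k / z0) {l : Fin n} (hl : l ∈ J)
    (hsum : v ((z0 : L) - ∑ k ∈ J, (z k : L)) < v (z l : L)) : symb a ∈ unitPart v n := by
  classical
  have hdiv : ∀ x y : Lˣ, ((x / y : Lˣ) : L) = (x : L) / (y : L) := fun x y =>
    Units.val_div_eq_div_val _ _
  obtain ⟨k0, hk0, hmax⟩ := Finset.exists_max_image J (fun k => v (z k : L)) ⟨l, hl⟩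
  have hk0big : v ((z0 : L) - ∑ k ∈ J, (z k : L)) < v (z k0 : L) := hsum.trans_le (hmax l hl)
  have h00 : 0 < v (z k0 : L) := by
    rw [Valuation.pos_iff]
    exact (z k0).ne_zero
  rcases lt_or_ge (v (z k0 : L)) (v (z0 : L)) with hc | hc
  · -- the largest is `z_0`
    have h00 : 0 < v (z0 : L) := h00.trans hc
    rw [← symb_neg_on a J]
    refine mem_unitPart_of_sum_on v _ J (fun k hk => ?_) ?_
    · rw [if_pos hk, Units.val_neg, Valuation.map_neg, ha k hk, hdiv, map_div₀, div_le_one₀ h00]
      exact (hmax k hk).trans hc.le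
    · have e : 1 + ∑ k ∈ J, ((if k ∈ J then -a k else a k : Lˣ) : L) =
          ((z0 : L) - ∑ k ∈ J, (z k : L)) / z0 := by
        rw [Finset.sum_congr rfl fun k hk => by rw [if_pos hk, Units.val_neg, ha k hk, hdiv],
          Finset.sum_neg_distrib, ← Finset.sum_div, sub_div, div_self z0.ne_zero]
        ring
      rw [e, map_div₀, div_lt_one₀ h00]
      exact hk0big.trans hc
  · rw [← symb_div_on a k0 (J.erase k0) (Finset.notMem_erase k0 _)]
    set b : Fin n → Lˣ := fun k => if k ∈ J.erase k0 then a k / a k0 else a k with hb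
    have hbk0 : b k0 = a k0 := by simp [hb]
    have h1 : symb b = - symb (Function.update b k0 (-(a k0)⁻¹)) := by
      rw [symb_upd_neg, symb_upd_inv, neg_neg, ← hbk0, Function.update_eq_self]
    rw [h1]
    refine Submodule.neg_mem _ ?_
    have hz : ∀ k ∈ J.erase k0, ((Function.update b k0 (-(a k0)⁻¹) k : Lˣ) : L) =
        (z k : L) / z k0 := by
      intro k hk
      have hkJ := Finset.mem_of_mem_erase hk
      rw [Function.update_of_ne (Finset.ne_of_mem_erase hk), hb]
      simp only [if_pos hk]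
      rw [ha k hkJ, ha k0 hk0, hdiv, hdiv, hdiv]
      have := z0.ne_zero
      have := (z k0).ne_zero
      field_simp
    have hz0 : ((Function.update b k0 (-(a k0)⁻¹) k0 : Lˣ) : L) = - ((z0 : L) / z k0) := by
      rw [Function.update_self, Units.val_neg, Units.val_inv_eq_inv_val, ha k0 hk0, hdiv, inv_div]
    refine mem_unitPart_of_sum_on v _ J (fun k hk => ?_) ?_
    · by_cases hkk : k = k0
      · rw [hkk, hz0, Valuation.map_neg, map_div₀, div_le_one₀ h00]
        exact hc
      · rw [hz k (Finset.mem_erase.2 ⟨hkk, hk⟩), map_div₀, div_le_one₀ h00]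
        exact hmax k hk
    · rw [← Finset.add_sum_erase J _ hk0, hz0, Finset.sum_congr rfl hz, ← Finset.sum_div]
      have e : (1 : L) + (-((z0 : L) / z k0) + (∑ k ∈ J.erase k0, (z k : L)) / z k0) =
          -(((z0 : L) - ∑ k ∈ J, (z k : L)) / z k0) := by
        rw [← Finset.add_sum_erase J _ hk0]
        have := (z k0).ne_zero
        field_simp
        ring
      rw [e, Valuation.map_neg, map_div₀, div_lt_one₀ h00]
      exact hk0big

end block

section del

variable {K : Type*} [Field K] {d m : ℕ} {c : Fin (m + 1) → Fin (d + 1) → K}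
  {a : Fin (m + 1) → K}

theorem det_int (hc : ∀ e j, IsIntegral ℤ (c e j)) (T : Fin (d + 1) → Fin (m + 1)) :
    IsIntegral ℤ (cm c T).det := IsIntegral.det fun _ _ => hc _ _

theorem Del_ne : Del c ≠ 0 := by
  classical
  unfold Del
  refine Finset.prod_ne_zero_iff.2 fun T _ => ?_
  split_ifs with h
  · exact one_ne_zero
  · exact h

theorem Del_int (hc : ∀ e j, IsIntegral ℤ (c e j)) : IsIntegral ℤ (Del c) := by
  classical
  unfold Del
  refine IsIntegral.prod _ fun T _ => ?_
  split_ifs
  · exact isIntegral_one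
  · exact det_int hc T

theorem Del_div (hc : ∀ e j, IsIntegral ℤ (c e j)) {T : Fin (d + 1) → Fin (m + 1)}
    (hT : (cm c T).det ≠ 0) : IsIntegral ℤ (Del c * ((cm c T).det)⁻¹) := by
  classical
  unfold Del
  rw [← Finset.mul_prod_erase Finset.univ _ (Finset.mem_univ T), if_neg hT, mul_comm,
    inv_mul_cancel_left₀ hT]
  refine IsIntegral.prod _ fun T' _ => ?_
  split_ifs
  · exact isIntegral_one
  · exact det_int hc T'

theorem Del_inv (hc : ∀ e j, IsIntegral ℤ (c e j)) {T : Fin (d + 1) → Fin (m + 1)}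
    (hT : (cm c T).det ≠ 0) (i j : Fin (d + 1)) : IsIntegral ℤ (Del c * (cm c T)⁻¹ i j) := by
  rw [Matrix.inv_def, Matrix.smul_apply, smul_eq_mul, Ring.inverse_eq_inv', ← mul_assoc]
  refine (Del_div hc hT).mul ?_
  rw [Matrix.adjugate_apply]
  refine IsIntegral.det fun p q => ?_
  rw [Matrix.updateRow_apply]
  split_ifs
  · rw [Pi.single_apply]
    split_ifs
    · exact isIntegral_one
    · exact isIntegral_zero
  · exact hc _ _

theorem Del_al (hc : ∀ e j, IsIntegral ℤ (c e j)) {T : Fin (d + 1) → Fin (m + 1)}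
    (hT : (cm c T).det ≠ 0) (e : Fin (m + 1)) (l : Fin (d + 1)) :
    IsIntegral ℤ (Del c * al c T e l) := by
  unfold al
  rw [Finset.mul_sum]
  refine IsIntegral.sum _ fun j _ => ?_
  rw [mul_left_comm]
  exact (hc _ _).mul (Del_inv hc hT _ _)

theorem Del_be (hc : ∀ e j, IsIntegral ℤ (c e j)) (ha : ∀ e, IsIntegral ℤ (a e))
    {T : Fin (d + 1) → Fin (m + 1)} (hT : (cm c T).det ≠ 0) (e : Fin (m + 1)) :
    IsIntegral ℤ (Del c * be c a T e) := by
  unfold be
  rw [mul_sub, Finset.mul_sum]
  refine (IsIntegral.sum _ fun l _ => ?_).sub ((Del_int hc).mul (ha _))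
  rw [← mul_assoc]
  exact (Del_al hc hT _ _).mul (ha _)

theorem Del_kap_inv (hc : ∀ e j, IsIntegral ℤ (c e j)) {T : Fin (d + 1) → Fin (m + 1)}
    (hT : (cm c T).det ≠ 0) (i : Fin (d + 1)) : IsIntegral ℤ (Del c * (kap c T i)⁻¹) := by
  unfold kap
  rw [inv_div, div_eq_mul_inv, mul_left_comm]
  exact (det_int hc _).mul (Del_div hc (hi_spec hT i))

end del

section val

variable {K : Type*} [Field K] {L : Type*} [Field L] (φ : K →+* L) (v : Valuation L ℤᵐ⁰)

theorem val_le_exp {D x : K} {n : ℤ} (hD : v (φ D) = WithZero.exp (-n))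
    (h : IsIntegral ℤ (D * x)) : v (φ x) ≤ WithZero.exp n := by
  have h1 : v (φ (D * x)) ≤ 1 := val_le_one_of_integral v (map_isIntegral_int φ h)
  rw [map_mul, map_mul, hD] at h1
  calc v (φ x) = WithZero.exp n * (WithZero.exp (-n) * v (φ x)) := by
        rw [← mul_assoc, ← WithZero.exp_add, add_neg_cancel, WithZero.exp_zero, one_mul]
    _ ≤ WithZero.exp n * 1 := mul_le_mul' le_rfl h1
    _ = _ := mul_one _

variable {d m : ℕ} {c : Fin (m + 1) → Fin (d + 1) → K} {a : Fin (m + 1) → K}

/-- the threshold for the form `T_k` -/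
noncomputable def thr (n : ℤ) (c : Fin (m + 1) → Fin (d + 1) → K)
    (T : Fin (d + 1) → Fin (m + 1)) (k : Fin (d + 1)) : ℤ :=
  n * (2 * ((m : ℤ) - (hi c T k : ℕ)) + 2)

/-- Either the forms `T_k` are bounded, or there is a form `T_{k_0}` beyond its threshold, and the
block of the forms with the same index `h` is small. -/
theorem block_or_small (hc : ∀ e j, IsIntegral ℤ (c e j)) (ha : ∀ e, IsIntegral ℤ (a e))
    {n : ℤ} (hn : 0 ≤ n) (hD : v (φ (Del c)) = WithZero.exp (-n)) {T : Fin (d + 1) → Fin (m + 1)}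
    (hT : (cm c T).det ≠ 0) (l : Fin (m + 1) → L)
    (hl : ∀ e, l e = ∑ k, φ (al c T e k) * l (T k) + φ (be c a T e)) :
    (∀ k, v (l (T k)) ≤ WithZero.exp (thr n c T k)) ∨
    ∃ k0, v (l (hi c T k0) - ∑ k ∈ Finset.univ.filter (fun k => hi c T k = hi c T k0),
      φ (kap c T k) * l (T k)) < v (φ (kap c T k0) * l (T k0)) := by
  classical
  by_cases hB : ∃ k, WithZero.exp (thr n c T k) < v (l (T k))
  · right
    obtain ⟨k1, hk1⟩ := hB
    obtain ⟨k0, hk0, hmax⟩ := Finset.exists_max_image
      (Finset.univ.filter fun k => WithZero.exp (thr n c T k) < v (l (T k)))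
      (fun k => hi c T k) ⟨k1, Finset.mem_filter.2 ⟨Finset.mem_univ _, hk1⟩⟩
    have hk0v : WithZero.exp (thr n c T k0) < v (l (T k0)) := (Finset.mem_filter.1 hk0).2
    refine ⟨k0, ?_⟩
    set J : Finset (Fin (d + 1)) := Finset.univ.filter fun k => hi c T k = hi c T k0 with hJ
    have e1 : l (hi c T k0) - ∑ k ∈ J, φ (kap c T k) * l (T k) =
        ∑ k ∈ Jᶜ, φ (al c T (hi c T k0) k) * l (T k) + φ (be c a T (hi c T k0)) := by
      rw [hl (hi c T k0), ← Finset.sum_add_sum_compl J]
      have e2 : ∀ k ∈ J, φ (kap c T k) * l (T k) = φ (al c T (hi c T k0) k) * l (T k) := by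
        intro k hk
        rw [kap_eq hT, (Finset.mem_filter.1 hk).2]
      rw [Finset.sum_congr rfl e2]
      ring
    have hkapv : WithZero.exp (-n) ≤ v (φ (kap c T k0)) := by
      have h1 := val_le_exp φ v hD (Del_kap_inv hc hT k0)
      rw [map_inv₀, map_inv₀] at h1
      have h0 : 0 < v (φ (kap c T k0)) := by
        rw [Valuation.pos_iff]
        exact (map_ne_zero φ).2 (kap_ne hT k0)
      rw [WithZero.exp_neg]
      exact inv_le_of_inv_le₀ h0 h1
    -- the bound
    have hbig : WithZero.exp (thr n c T k0 - n) < v (φ (kap c T k0) * l (T k0)) := by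
      rw [map_mul, sub_eq_add_neg, add_comm, WithZero.exp_add]
      exact mul_lt_mul_of_le_of_lt_of_nonneg_of_pos hkapv hk0v zero_le
        (WithZero.exp_pos.trans_le hkapv)
    rw [e1]
    have hhi : (hi c T k0 : ℕ) ≤ m := Nat.lt_succ_iff.1 (hi c T k0).isLt
    have hthr : n ≤ thr n c T k0 - n := by
      unfold thr
      have h1 : (0 : ℤ) ≤ (m : ℤ) - (hi c T k0 : ℕ) := by omega
      nlinarith [mul_nonneg hn h1]
    refine lt_of_le_of_lt ((v.map_add _ _).trans (max_le ?_ ?_)) hbig
    · refine Valuation.map_sum_le v fun k hk => ?_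
      by_cases hal : al c T (hi c T k0) k = 0
      · rw [hal, map_zero, zero_mul, map_zero]
        exact zero_le
      · have h1 : hi c T k0 ≤ hi c T k := le_hi_of_al hT hal
        have h2 : hi c T k ≠ hi c T k0 := fun h =>
          (Finset.mem_compl.1 hk) (Finset.mem_filter.2 ⟨Finset.mem_univ _, h⟩)
        have hlt : hi c T k0 < hi c T k := lt_of_le_of_ne h1 h2.symm
        have h3 : v (l (T k)) ≤ WithZero.exp (thr n c T k) := by
          by_contra h
          exact absurd (hmax k (Finset.mem_filter.2 ⟨Finset.mem_univ _, not_le.1 h⟩))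
            (not_le.2 hlt)
        rw [map_mul]
        calc v (φ (al c T (hi c T k0) k)) * v (l (T k))
            ≤ WithZero.exp n * WithZero.exp (thr n c T k) :=
              mul_le_mul' (val_le_exp φ v hD (Del_al hc hT _ _)) h3
          _ = WithZero.exp (n + thr n c T k) := (WithZero.exp_add _ _).symm
          _ ≤ WithZero.exp (thr n c T k0 - n) := by
            rw [WithZero.exp_le_exp]
            unfold thr
            have h4 : ((hi c T k0 : ℕ) : ℤ) + 1 ≤ (hi c T k : ℕ) := by
              exact_mod_cast Fin.lt_def.1 hlt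
            nlinarith [mul_le_mul_of_nonneg_left h4 hn]
    · exact (val_le_exp φ v hD (Del_be hc ha hT _)).trans (WithZero.exp_le_exp.2 hthr)
  · left
    push Not at hB
    exact hB

end val

end Pool.Agent.N65.TU
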